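import Mathlib

set_option autoImplicit false

/-!
Polynomial counterexamples to two variants of the Hopf lemma (Li–Nirenberg).
-/

namespace Pool.Agent.U375.Hopf

open Finset

noncomputable section

/-- `ℝ^m` -/
abbrev Y (m : ℕ) : Type := EuclideanSpace ℝ (Fin m)

/-- the Laplacian in all variables `(t, y)` -/
def lap {m : ℕ} (w : ℝ → Y m → ℝ) (t : ℝ) (y : Y m) : ℝ :=
  iteratedDeriv 2 (fun τ => w τ y) t +
    ∑ j : Fin m, iteratedDeriv 2 (fun r : ℝ => w t (y + r • EuclideanSpace.single j (1 : ℝ))) 0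

/-- `q = 1 / ((j+4)(j+3))` -/
def q (j : ℕ) : ℝ := 1 / (((j : ℝ) + 4) * ((j : ℝ) + 3))

def u (m j : ℕ) (t : ℝ) (y : Y m) : ℝ := t * ‖y‖ ^ 2 + q j ^ 2 * t ^ (j + 4)

def v (m j : ℕ) (t : ℝ) (y : Y m) : ℝ :=
  (t / 2 + t ^ (j + 2) / 2) * ‖y‖ ^ 2 + q j ^ 2 / 2 ^ (j + 5) * t ^ (j + 4)

theorem q_pos (j : ℕ) : 0 < q j := by unfold q; positivity

theorem q_le (j : ℕ) : q j ≤ 1 / 12 := by
  unfold q
  apply one_div_le_one_div_of_le (by norm_num)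
  have : (0 : ℝ) ≤ j := Nat.cast_nonneg j
  nlinarith

theorem q_mul (j : ℕ) : q j * (((j : ℝ) + 4) * ((j : ℝ) + 3)) = 1 := by
  unfold q
  have : (0 : ℝ) ≤ j := Nat.cast_nonneg j
  field_simp

/-- derivatives of `A t + B t^(j+2) + C t^(j+4)` -/
theorem d1 (A B C : ℝ) (j : ℕ) (t : ℝ) :
    HasDerivAt (fun t : ℝ => A * t + B * t ^ (j + 2) + C * t ^ (j + 4))
      (A + B * ((j + 2 : ℝ) * t ^ (j + 1)) + C * ((j + 4 : ℝ) * t ^ (j + 3))) t := by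
  have h1 := (hasDerivAt_id t).const_mul A
  have h2 := (hasDerivAt_pow (j + 2) t).const_mul B
  have h3 := (hasDerivAt_pow (j + 4) t).const_mul C
  have h := (h1.add h2).add h3
  refine h.congr_deriv ?_
  rw [show j + 2 - 1 = j + 1 from by omega, show j + 4 - 1 = j + 3 from by omega]
  push_cast
  ring

theorem d2 (A B C : ℝ) (j : ℕ) (t : ℝ) :
    HasDerivAt (fun t : ℝ => A + B * ((j + 2 : ℝ) * t ^ (j + 1)) + C * ((j + 4 : ℝ) * t ^ (j + 3)))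
      (B * ((j + 2 : ℝ) * ((j + 1 : ℝ) * t ^ j)) +
        C * ((j + 4 : ℝ) * ((j + 3 : ℝ) * t ^ (j + 2)))) t := by
  have h2 := ((hasDerivAt_pow (j + 1) t).const_mul (j + 2 : ℝ)).const_mul B
  have h3 := ((hasDerivAt_pow (j + 3) t).const_mul (j + 4 : ℝ)).const_mul C
  have h := ((hasDerivAt_const t A).add h2).add h3
  refine h.congr_deriv ?_
  rw [show j + 1 - 1 = j from by omega, show j + 3 - 1 = j + 2 from by omega]
  push_cast
  ring

theorem it2 (A B C : ℝ) (j : ℕ) (t : ℝ) :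
    iteratedDeriv 2 (fun t : ℝ => A * t + B * t ^ (j + 2) + C * t ^ (j + 4)) t =
      B * ((j + 2 : ℝ) * ((j + 1 : ℝ) * t ^ j)) +
        C * ((j + 4 : ℝ) * ((j + 3 : ℝ) * t ^ (j + 2))) := by
  rw [iteratedDeriv_succ, iteratedDeriv_one]
  have : deriv (fun t : ℝ => A * t + B * t ^ (j + 2) + C * t ^ (j + 4)) =
      fun t : ℝ => A + B * ((j + 2 : ℝ) * t ^ (j + 1)) + C * ((j + 4 : ℝ) * t ^ (j + 3)) := by
    funext t
    exact (d1 A B C j t).deriv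
  rw [this]
  exact (d2 A B C j t).deriv

/-- second derivative of the squared norm along a coordinate line -/
theorem itn {m : ℕ} (a b : ℝ) (y : Y m) (i : Fin m) :
    iteratedDeriv 2 (fun r : ℝ => a * ‖y + r • EuclideanSpace.single i (1 : ℝ)‖ ^ 2 + b) 0 =
      2 * a := by
  have h0 : ∀ r : ℝ, ‖y + r • EuclideanSpace.single i (1 : ℝ)‖ ^ 2 =
      ‖y‖ ^ 2 + 2 * r * y i + r ^ 2 := by
    intro r
    rw [@norm_add_sq_real, inner_smul_right, norm_smul, PiLp.norm_single,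
      EuclideanSpace.inner_single_right]
    simp
    ring
  have h1 : (fun r : ℝ => a * ‖y + r • EuclideanSpace.single i (1 : ℝ)‖ ^ 2 + b) =
      fun r : ℝ => a * (‖y‖ ^ 2 + 2 * r * y i + r ^ 2) + b := by
    funext r
    rw [h0]
  rw [h1, iteratedDeriv_succ, iteratedDeriv_one]
  have h2 : deriv (fun r : ℝ => a * (‖y‖ ^ 2 + 2 * r * y i + r ^ 2) + b) =
      fun r : ℝ => a * (2 * y i + 2 * r) := by
    funext r
    have h : HasDerivAt (fun r : ℝ => a * (‖y‖ ^ 2 + 2 * r * y i + r ^ 2) + b)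
        (a * (0 + 2 * 1 * y i + 2 * r ^ (2 - 1) * 1)) r := by
      have e1 : HasDerivAt (fun r : ℝ => 2 * r * y i) (2 * 1 * y i) r :=
        ((hasDerivAt_id r).const_mul 2).mul_const (y i)
      have e2 : HasDerivAt (fun r : ℝ => r ^ 2) (2 * r ^ (2 - 1) * 1) r := by
        simpa using hasDerivAt_pow 2 r
      exact ((((hasDerivAt_const r _).add e1).add e2).const_mul a).add_const b
    rw [h.deriv]
    ring
  rw [h2]
  have h3 : HasDerivAt (fun r : ℝ => a * (2 * y i + 2 * r)) (a * (2 * 1)) 0 :=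
    ((((hasDerivAt_id (0 : ℝ)).const_mul 2).const_add (2 * y i)).const_mul a)
  rw [h3.deriv]
  ring

theorem lap_u (m j : ℕ) (t : ℝ) (y : Y m) :
    lap (u m j) t y = 2 * m * t + q j * t ^ (j + 2) := by
  unfold lap u
  have h1 : (fun τ : ℝ => τ * ‖y‖ ^ 2 + q j ^ 2 * τ ^ (j + 4)) =
      fun τ : ℝ => ‖y‖ ^ 2 * τ + 0 * τ ^ (j + 2) + q j ^ 2 * τ ^ (j + 4) := by
    funext τ
    ring
  rw [h1, it2]
  have h2 : ∀ i : Fin m, iteratedDeriv 2 (fun r : ℝ =>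
      t * ‖y + r • EuclideanSpace.single i (1 : ℝ)‖ ^ 2 + q j ^ 2 * t ^ (j + 4)) 0 = 2 * t :=
    fun i => itn t (q j ^ 2 * t ^ (j + 4)) y i
  rw [Finset.sum_congr rfl fun i _ => h2 i]
  rw [Finset.sum_const, Finset.card_univ, Fintype.card_fin, nsmul_eq_mul]
  have h3 := q_mul j
  have h4 : q j ^ 2 * ((j + 4 : ℝ) * ((j + 3 : ℝ) * t ^ (j + 2))) = q j * t ^ (j + 2) := by
    calc q j ^ 2 * ((j + 4 : ℝ) * ((j + 3 : ℝ) * t ^ (j + 2)))
        = q j * (q j * (((j : ℝ) + 4) * ((j : ℝ) + 3))) * t ^ (j + 2) := by ring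
      _ = q j * t ^ (j + 2) := by rw [h3]; ring
  rw [h4]
  ring

theorem lap_v (m j : ℕ) (t : ℝ) (y : Y m) :
    lap (v m j) t y = m * (t + t ^ (j + 2)) + (j + 2) * (j + 1) / 2 * t ^ j * ‖y‖ ^ 2 +
      q j / 2 ^ (j + 5) * t ^ (j + 2) := by
  unfold lap v
  have h1 : (fun τ : ℝ => (τ / 2 + τ ^ (j + 2) / 2) * ‖y‖ ^ 2 +
      q j ^ 2 / 2 ^ (j + 5) * τ ^ (j + 4)) =
      fun τ : ℝ => (‖y‖ ^ 2 / 2) * τ + (‖y‖ ^ 2 / 2) * τ ^ (j + 2) +
        (q j ^ 2 / 2 ^ (j + 5)) * τ ^ (j + 4) := by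
    funext τ
    ring
  rw [h1, it2]
  have h2 : ∀ i : Fin m, iteratedDeriv 2 (fun r : ℝ =>
      (t / 2 + t ^ (j + 2) / 2) * ‖y + r • EuclideanSpace.single i (1 : ℝ)‖ ^ 2 +
        q j ^ 2 / 2 ^ (j + 5) * t ^ (j + 4)) 0 = 2 * (t / 2 + t ^ (j + 2) / 2) :=
    fun i => itn _ _ y i
  rw [Finset.sum_congr rfl fun i _ => h2 i]
  rw [Finset.sum_const, Finset.card_univ, Fintype.card_fin, nsmul_eq_mul]
  have h3 := q_mul j
  have h4 : q j ^ 2 / 2 ^ (j + 5) * ((j + 4 : ℝ) * ((j + 3 : ℝ) * t ^ (j + 2))) =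
      q j / 2 ^ (j + 5) * t ^ (j + 2) := by
    calc q j ^ 2 / 2 ^ (j + 5) * ((j + 4 : ℝ) * ((j + 3 : ℝ) * t ^ (j + 2)))
        = q j * (q j * (((j : ℝ) + 4) * ((j : ℝ) + 3))) / 2 ^ (j + 5) * t ^ (j + 2) := by ring
      _ = q j / 2 ^ (j + 5) * t ^ (j + 2) := by rw [h3]; ring
  rw [h4]
  ring

/-- the comparison condition -/
theorem comp (m j : ℕ) (hm : 1 ≤ m) (t s : ℝ) (y : Y m) (ht : 0 < t) (hts : t ≤ s)
    (h : u m j t y = v m j s y) : lap (u m j) t y ≤ lap (v m j) s y := by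
  rw [lap_u, lap_v]
  unfold u v at h
  have hs : 0 < s := lt_of_lt_of_le ht hts
  have hq := q_pos j
  have hq1 := q_le j
  have hm' : (1 : ℝ) ≤ m := by exact_mod_cast hm
  have hj : (0 : ℝ) ≤ j := Nat.cast_nonneg j
  set Z : ℝ := ‖y‖ ^ 2 with hZ
  have hZ0 : 0 ≤ Z := by positivity
  have htj : 0 < t ^ j := by positivity
  have hsj : t ^ j ≤ s ^ j := pow_le_pow_left₀ ht.le hts j
  have hc : (1 : ℝ) ≤ (j + 2) * (j + 1) / 2 := by nlinarith
  have hP : (0 : ℝ) < 2 ^ (j + 5) := by positivity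
  have hlast : 0 ≤ q j / 2 ^ (j + 5) * s ^ (j + 2) := by positivity
  rcases le_or_gt (2 * t) s with h2 | h2
  · -- `s ≥ 2 t`
    have e1 : t ^ (j + 2) ≤ s ^ (j + 2) := pow_le_pow_left₀ ht.le hts _
    have e2 : 0 ≤ ((j : ℝ) + 2) * (j + 1) / 2 * s ^ j * Z := by positivity
    have e3 : 0 < t ^ (j + 2) := by positivity
    have e4 : q j * t ^ (j + 2) ≤ s ^ (j + 2) := by nlinarith
    have e5 : 0 ≤ (s + s ^ (j + 2) - 2 * t) - q j * t ^ (j + 2) := by linarith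
    have e6 : 0 ≤ s + s ^ (j + 2) - 2 * t := by
      have : 0 < q j * t ^ (j + 2) := by positivity
      linarith
    nlinarith
  · -- `s < 2 t`
    have e1 : s ^ (j + 4) ≤ (2 * t) ^ (j + 4) := pow_le_pow_left₀ hs.le h2.le _
    have e2 : q j ^ 2 / 2 ^ (j + 5) * s ^ (j + 4) ≤ q j ^ 2 / 2 * t ^ (j + 4) := by
      calc q j ^ 2 / 2 ^ (j + 5) * s ^ (j + 4) ≤ q j ^ 2 / 2 ^ (j + 5) * (2 * t) ^ (j + 4) :=
            mul_le_mul_of_nonneg_left e1 (by positivity)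
        _ = q j ^ 2 / 2 * t ^ (j + 4) := by
            rw [mul_pow, show (2 : ℝ) ^ (j + 5) = 2 ^ (j + 4) * 2 from by ring]
            field_simp
    -- the key identity
    have e3 : q j ^ 2 * t ^ (j + 4) ≤ Z * (s + s ^ (j + 2) - 2 * t) := by
      nlinarith
    have e4 : 0 < q j ^ 2 * t ^ (j + 4) := by positivity
    have hZp : 0 < Z := by
      rcases hZ0.eq_or_lt with h0 | h0
      · rw [← h0] at e3
        linarith
      · exact h0
    have e5 : 0 < s + s ^ (j + 2) - 2 * t := by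
      by_contra hcon
      have : Z * (s + s ^ (j + 2) - 2 * t) ≤ 0 := mul_nonpos_of_nonneg_of_nonpos hZ0 (by linarith)
      linarith
    -- multiply by `Z`
    have e6 : 0 ≤ Z * ((s + s ^ (j + 2) - 2 * t) + t ^ j * Z - q j * t ^ (j + 2)) := by
      have e7 : t ^ j * (q j ^ 2 * t ^ 4 + Z ^ 2 - q j * t ^ 2 * Z) ≤
          Z * ((s + s ^ (j + 2) - 2 * t) + t ^ j * Z - q j * t ^ (j + 2)) := by
        have e8 : q j ^ 2 * t ^ (j + 4) = t ^ j * (q j ^ 2 * t ^ 4) := by ring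
        rw [e8] at e3
        have e9 : q j * t ^ (j + 2) = t ^ j * (q j * t ^ 2) := by ring
        rw [e9]
        nlinarith
      refine le_trans ?_ e7
      apply mul_nonneg htj.le
      nlinarith [sq_nonneg (q j * t ^ 2 - Z), sq_nonneg (q j * t ^ 2), sq_nonneg Z]
    have e7 : 0 ≤ (s + s ^ (j + 2) - 2 * t) + t ^ j * Z - q j * t ^ (j + 2) :=
      nonneg_of_mul_nonneg_right e6 hZp
    have e8 : t ^ j * Z ≤ ((j : ℝ) + 2) * (j + 1) / 2 * s ^ j * Z := by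
      apply mul_le_mul_of_nonneg_right _ hZ0
      nlinarith [pow_pos hs j]
    nlinarith

theorem u_smooth (m j : ℕ) : ContDiff ℝ (⊤ : WithTop ℕ∞) (fun p : ℝ × Y m => u m j p.1 p.2) := by
  unfold u
  have h2 : ContDiff ℝ (⊤ : WithTop ℕ∞) (fun p : ℝ × Y m => ‖p.2‖ ^ 2) := contDiff_snd.norm_sq ℝ
  exact (contDiff_fst.mul h2).add (contDiff_const.mul (contDiff_fst.pow _))

theorem v_smooth (m j : ℕ) : ContDiff ℝ (⊤ : WithTop ℕ∞) (fun p : ℝ × Y m => v m j p.1 p.2) := by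
  unfold v
  have h2 : ContDiff ℝ (⊤ : WithTop ℕ∞) (fun p : ℝ × Y m => ‖p.2‖ ^ 2) := contDiff_snd.norm_sq ℝ
  exact (((contDiff_fst.div_const 2).add ((contDiff_fst.pow _).div_const 2)).mul h2).add
    (contDiff_const.mul (contDiff_fst.pow _))

theorem u_deriv (m j : ℕ) (t : ℝ) (y : Y m) :
    deriv (fun τ => u m j τ y) t = ‖y‖ ^ 2 + q j ^ 2 * ((j + 4) * t ^ (j + 3)) := by
  unfold u
  have h1 : (fun τ : ℝ => τ * ‖y‖ ^ 2 + q j ^ 2 * τ ^ (j + 4)) =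
      fun τ : ℝ => ‖y‖ ^ 2 * τ + 0 * τ ^ (j + 2) + q j ^ 2 * τ ^ (j + 4) := by
    funext τ
    ring
  rw [h1, (d1 _ _ _ j t).deriv]
  ring

theorem v_deriv (m j : ℕ) (t : ℝ) (y : Y m) :
    deriv (fun τ => v m j τ y) t = ‖y‖ ^ 2 / 2 + ‖y‖ ^ 2 / 2 * ((j + 2) * t ^ (j + 1)) +
      q j ^ 2 / 2 ^ (j + 5) * ((j + 4) * t ^ (j + 3)) := by
  unfold v
  have h1 : (fun τ : ℝ => (τ / 2 + τ ^ (j + 2) / 2) * ‖y‖ ^ 2 +
      q j ^ 2 / 2 ^ (j + 5) * τ ^ (j + 4)) =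
      fun τ : ℝ => (‖y‖ ^ 2 / 2) * τ + (‖y‖ ^ 2 / 2) * τ ^ (j + 2) +
        (q j ^ 2 / 2 ^ (j + 5)) * τ ^ (j + 4) := by
    funext τ
    ring
  rw [h1, (d1 _ _ _ j t).deriv]

theorem v_lt_u (m j : ℕ) (t : ℝ) (y : Y m) (ht : 0 < t) (ht1 : t < 1) :
    v m j t y < u m j t y := by
  unfold u v
  have hq := q_pos j
  have h1 : t ^ (j + 2) ≤ t := by
    calc t ^ (j + 2) ≤ t ^ 1 := pow_le_pow_of_le_one ht.le ht1.le (by omega)
      _ = t := pow_one t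
  have h2 : (t / 2 + t ^ (j + 2) / 2) * ‖y‖ ^ 2 ≤ t * ‖y‖ ^ 2 :=
    mul_le_mul_of_nonneg_right (by linarith) (by positivity)
  have h3 : q j ^ 2 / 2 ^ (j + 5) * t ^ (j + 4) < q j ^ 2 * t ^ (j + 4) := by
    apply mul_lt_mul_of_pos_right _ (by positivity)
    apply div_lt_self (by positivity)
    apply one_lt_pow₀ (by norm_num) (by omega)
  linarith

/-- derivatives of `C t^k` at zero -/
theorem it_mon (C : ℝ) (k i : ℕ) :
    iteratedDeriv i (fun t : ℝ => C * t ^ k) 0 = if i = k then C * k.factorial else 0 := by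
  rw [iteratedDeriv_const_mul_field, iteratedDeriv_fun_pow_zero]
  split_ifs with h
  · rfl
  · simp

theorem u_line (m j : ℕ) : (fun t : ℝ => u m j t 0) = fun t : ℝ => q j ^ 2 * t ^ (j + 4) := by
  funext t
  unfold u
  simp

theorem v_line (m j : ℕ) : (fun t : ℝ => v m j t 0) =
    fun t : ℝ => q j ^ 2 / 2 ^ (j + 5) * t ^ (j + 4) := by
  funext t
  unfold v
  simp

end

end Pool.Agent.U375.Hopf
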